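import Pool.Agent.W_4481e3_q87.GoR
import Pool.Agent.W_4481e3_tab.T5

/-!
Tree s20o5, data 10.
-/

namespace Pool.Agent.W_4481e3_rt.s20o5

open Pool.Agent.W_4481e3_q25.EvR

theorem k206 : ckO Pool.Agent.W_4481e3_tab.T5.tab 55520 88320 134217728 524288 742195 1048576 17 2621440 524288 524288 524288 509974937 533284782 1793065 3586130 268435456 268435456 16777216 16777216 1059062 1059062 0x102004c03004c203004c03004c04028c2103004c04028c205038c04004c04028c205038c04050c06000c605038c06000c6521212102004c04028c102004c04004c04004c21204004c04004c04004c2104004c04004c04050c21204004c04004c06000c6504004c06000c106000c5206000c06000c506000c06000c106000c06000c06000c6152104004c04004c04004c6504004c04004c404004c3208008d0a01fd3400003c00003c4306000c06000c106038c06000c07000c21606000c06000c07000c2606000c06000c207000c07000c2615aa04004c4305001f07001f3404004c04004c430b03cd400005c00003c4306038c07000c07000c5607000c07000c07038c107038c07000c07000c6156207000c07000c07000c5207000c07000c507000c07000c07038c1607000c07038c07000c07038c21652615212104028c04004c04004c204004c404004c3104050c04004c04004c404004c304004c04004c404004c321204004ca04004c305001f4504004c304004c08001f505001f404004c3208008d0a01fd3400003c00003c43aa06001f4306001f404004c04004c4308008d0a01fd3400005c00003c43a08001f305001f408001f05001f4604004c04004c604004c4308008d08008d3400003c00003c4307000c07038c107038c07038c1509001f05001f404004c04004c4308008d42a08001f305001f405037c07001f402007c308008d4308008d08008d34600005c00005c4315a08001f06001f4307001f404004c04004c608001f07001f607001f402007c350a01fd4308008d0a01fd3400005c00005c4321a05001f408001f0a001f07001f21308008d404004c04004c204004c04004c604004c208008d408001f03007c208001f402007c308008d451308008d08001f07001f09001f21408008d08008d09001f02005c3402007c343400005c00005c4321212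 = true := by decide +kernel

theorem k208 : ckO Pool.Agent.W_4481e3_tab.T5.tab 55520 88320 134217728 524288 742195 1048576 17 2621440 524288 524288 524288 511768002 526112522 3586130 3586130 268435456 268435456 16777216 16777216 1059062 1059062 0x102000c02000c03028c1203000c03000c03004c03000c040a0c21203028c03004c03004c05103c204028c04028c04028c04028c050a0c62104028c04028c204028c06000c21521204028c03004c040a0c2104028c04028c04028c504004c3104028c050a0c606000c206000c06000c2104028c06000c606000c206000c06000c215204004c04050c04070c5204070c04004c06000c604004c06000c06038c1652104004c406000c06000c06000c6206000c06000c606000c06000c07000c162506000c06000c06103c5606000c06000c07000c16206103c06000c06103c507000c07000c21606000c06000c07000c5106000c06000c07000c5100000707000c07000c507000c07000c2107000c07000c507000c07000c210000076251204004c04004c304004c05004c04004c420000dc304004c04004c304004c06000c07000c16204004c04004c05004c6204004c400005c00005c435120300ec00005c3431212121 = true := by decide +kernel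

theorem k211 : ckO Pool.Agent.W_4481e3_tab.T5.tab 55520 88320 134217728 524288 742195 1048576 5 2621440 524288 524288 524288 515354132 515354132 7172260 7172260 268435456 268435456 16777216 16777216 1059062 1059062 0x101027c02000c202000c02000c02028c202000c03000c2121 = true := by decide +kernel

theorem k214 : ckO Pool.Agent.W_4481e3_tab.T5.tab 55520 88320 134217728 524288 742195 1048576 4 2621440 524288 524288 524288 522526392 493837352 14344520 14344520 268435456 268435456 16777216 16777216 1059062 1059062 0x100000c00003c01015c1200003c01004c01004c121 = true := by decide +kernel

theorem k216 : ckO Pool.Agent.W_4481e3_tab.T5.tab 55520 88320 134217728 524288 742195 1048576 8 2621440 524288 524288 524288 493837352 508181872 14344520 28689040 268435456 268435456 16777216 16777216 1059062 1059062 0x100000c00000c00003c00003c00027c00003c00027c02004c2121212 = true := by decide +kernel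

end Pool.Agent.W_4481e3_rt.s20o5
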